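import Pool.Agent.CG3.Main

/-!
# The cohomology of the locally symmetric spaces of GL₃ over ℚ : the statement

The definitions of this file repeat those of `Pool.Agent.CG3.Defs`, `Hecke` and `Statement` with
named types, so that they can be displayed in short form.
-/

noncomputable section

namespace Pool.Agent.CG3F

open Matrix

/-- Prime numbers (the finite places of `ℚ`). -/
abbrev P := Nat.Primes

instance (priority := high) prime_fact (ℓ : P) : Fact (Nat.Prime (ℓ : ℕ)) := ⟨ℓ.2⟩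

/-- The group `GL₃(ℚ)`. -/
def QG : Type := GL (Fin 3) ℚ

instance : Group QG := (inferInstance : Group (GL (Fin 3) ℚ))

/-- The underlying matrix. -/
def QG.mat (γ : QG) : Matrix (Fin 3) (Fin 3) ℚ := Units.val γ

/-- The field `ℚ_ℓ`. -/
abbrev Ql (ℓ : P) := ℚ_[(ℓ : ℕ)]

/-- The group `GL₃(ℚ_ℓ)`. -/
def LG (ℓ : P) : Type := GL (Fin 3) (Ql ℓ)

instance (ℓ : P) : Group (LG ℓ) := (inferInstance : Group (GL (Fin 3) (Ql ℓ)))

/-- The usual topology of `GL₃(ℚ_ℓ)`. -/
instance (ℓ : P) : TopologicalSpace (LG ℓ) := (inferInstance : TopologicalSpace (GL (Fin 3) (Ql ℓ)))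

/-- The subgroup `GL₃(ℤ_ℓ)` of `GL₃(ℚ_ℓ)`. -/
def GZ (ℓ : P) : Subgroup (LG ℓ) :=
  (GeneralLinearGroup.map (n := Fin 3) (algebraMap ℤ_[(ℓ : ℕ)] (Ql ℓ))).range

/-- The families of elements of the groups `GL₃(ℚ_ℓ)`. -/
def Fam : Type := ∀ ℓ : P, LG ℓ

instance : Group Fam := (inferInstance : Group (∀ ℓ : P, LG ℓ))

/-- Almost all members of the family `g` are in `GL₃(ℤ_ℓ)`. -/
def AlmostInt (g : Fam) : Prop := {ℓ : P | g ℓ ∉ GZ ℓ}.Finite

theorem almostInt_mul {a b : Fam} (ha : AlmostInt a) (hb : AlmostInt b) : AlmostInt (a * b) :=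
  CG3.GA.mul_mem' ha hb

theorem almostInt_one : AlmostInt 1 := CG3.GA.one_mem'

theorem almostInt_inv {a : Fam} (ha : AlmostInt a) : AlmostInt a⁻¹ := CG3.GA.inv_mem' ha

/-- The subgroup of the families almost all of whose members are in `GL₃(ℤ_ℓ)`. -/
def GA : Subgroup Fam where
  carrier := {g | AlmostInt g}
  mul_mem' := almostInt_mul
  one_mem' := almostInt_one
  inv_mem' := almostInt_inv

/-- The group `GL₃(𝔸_f)`, `𝔸_f` the ring of finite adeles of `ℚ` : the restricted product of the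
groups `GL₃(ℚ_ℓ)` with respect to the subgroups `GL₃(ℤ_ℓ)`. -/
def AG : Type := GA

instance : Group AG := (inferInstance : Group GA)

/-- The element of `GL₃(𝔸_f)` given by a family. -/
def AG.mk (g : Fam) (h : AlmostInt g) : AG := ⟨g, h⟩

/-- The component at `ℓ` of an element of `GL₃(𝔸_f)`. -/
def AG.comp (g : AG) (ℓ : P) : LG ℓ := g.1 ℓ

/-- The image of a rational matrix in `GL₃(ℚ_ℓ)`. -/
def loc (ℓ : P) (γ : QG) : LG ℓ := GeneralLinearGroup.map (algebraMap ℚ (Ql ℓ)) γ

theorem almostInt_loc (γ : QG) : AlmostInt (fun ℓ => loc ℓ γ) := (CG3.diag γ).2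

/-- The image of `γ` under the diagonal embedding `GL₃(ℚ) → GL₃(𝔸_f)`. -/
def diag (γ : QG) : AG := AG.mk (fun ℓ => loc ℓ γ) (almostInt_loc γ)

/-- The family with member `h` at `ℓ` and `1` elsewhere. -/
def singleFam (ℓ : P) (h : LG ℓ) : Fam := Pi.mulSingle (M := LG) ℓ h

theorem almostInt_single (ℓ : P) (h : LG ℓ) : AlmostInt (singleFam ℓ h) := (CG3.single ℓ h).2

/-- The element of `GL₃(𝔸_f)` with component `h` at `ℓ` and `1` elsewhere. -/
def single (ℓ : P) (h : LG ℓ) : AG := AG.mk (singleFam ℓ h) (almostInt_single ℓ h)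

/-- The action of `GL₃(ℚ)` on the set `{1,-1}` of connected components of `GL₃(ℝ)/ℝ_{>0} SO(3)`:
the sign of the determinant. -/
def sgn (γ : QG) : ℤˣ := if 0 < γ.mat.det then 1 else -1

/-- A level: compact open subgroups `K_ℓ` of `GL₃(ℚ_ℓ)` for all primes `ℓ`, with
`K_ℓ = GL₃(ℤ_ℓ)` for `ℓ` outside a finite set `S` of primes which contains `p`. The group
`K_f` is the product of the `K_ℓ`. -/
structure Level (p : P) (S : Finset P) where
  /-- the local groups -/
  K : ∀ ℓ : P, Subgroup (LG ℓ)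
  isOpen : ∀ ℓ, IsOpen (K ℓ : Set (LG ℓ))
  isCompact : ∀ ℓ, IsCompact (K ℓ : Set (LG ℓ))
  off : ∀ ℓ, ℓ ∉ S → K ℓ = GZ ℓ
  mem : p ∈ S

variable {p : P} {S : Finset P}

/-- The same level in the notation of `Pool.Agent.CG3`. -/
def Level.old (L : Level p S) : CG3.Level p S := ⟨L.K, L.isOpen, L.isCompact, L.off, L.mem⟩

/-- The element `g` of `GL₃(𝔸_f)` is in `K_f` : all its components are in the groups `K_ℓ`. -/
def Level.InK (L : Level p S) (g : AG) : Prop := ∀ ℓ, g.comp ℓ ∈ L.K ℓ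

theorem Level.inK_mul (L : Level p S) {a b : AG} (ha : L.InK a) (hb : L.InK b) : L.InK (a * b) :=
  fun ℓ => (L.K ℓ).mul_mem (ha ℓ) (hb ℓ)

theorem Level.inK_one (L : Level p S) : L.InK 1 := fun ℓ => (L.K ℓ).one_mem

theorem Level.inK_inv (L : Level p S) {a : AG} (ha : L.InK a) : L.InK a⁻¹ :=
  fun ℓ => (L.K ℓ).inv_mem (ha ℓ)

/-- The group `K_f`, a subgroup of `GL₃(𝔸_f)`. -/
def Level.Kf (L : Level p S) : Subgroup AG where
  carrier := {k | L.InK k}
  mul_mem' := L.inK_mul
  one_mem' := L.inK_one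
  inv_mem' := L.inK_inv

/-- The group `K_p`. -/
def Level.Kp (L : Level p S) : Type := L.K p

instance (L : Level p S) : Group L.Kp := (inferInstance : Group (L.K p))

/-- The inclusion of `K_p` in `GL₃(ℚ_p)`. -/
def Level.val (L : Level p S) (k : L.Kp) : LG p := k.1

/-- The component at `p` of an element of `K_f`. -/
def Level.atp (L : Level p S) (k : L.Kf) : L.Kp := ⟨k.1.comp p, k.2 p⟩

/-- The groups `GL₃(ℚ) ∩ g K_f g⁻¹` (the fundamental groups of the components of `Y(K_f)` together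
with the elements of negative determinant) are torsion free, for all `g` in `GL₃(𝔸_f)`.
This holds when `K_f` is neat. -/
def Level.TorsionFree (L : Level p S) : Prop :=
  ∀ (g : AG) (γ : QG) (n : ℕ), 0 < n → g⁻¹ * diag γ * g ∈ L.Kf → γ ^ n = 1 → γ = 1

variable {O : Type} [CommRing O] {W : Type} [AddCommGroup W] [Module O W]

/-- The functions on `{1,-1} × GL₃(𝔸_f)` with values in `W`. -/
def Fn (W : Type) : Type := ℤˣ × AG → W

instance (W : Type) [AddCommGroup W] : AddCommGroup (Fn W) :=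
  (inferInstance : AddCommGroup (ℤˣ × AG → W))

instance (O : Type) [CommRing O] (W : Type) [AddCommGroup W] [Module O W] : Module O (Fn W) :=
  (inferInstance : Module O (ℤˣ × AG → W))

/-- The condition `f (x, g k) = k_p⁻¹ f (x, g)` for all `k` in `K_f`; here `σ` is the action of
`K_p` on `W`. -/
def IsForm (L : Level p S) (σ : Representation O L.Kp W) (f : Fn W) : Prop :=
  ∀ (x : ℤˣ) (g : AG) (k : L.Kf), f (x, g * k) = σ (L.atp k)⁻¹ (f (x, g))

theorem isForm_add (L : Level p S) (σ : Representation O L.Kp W) {a b : Fn W}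
    (ha : IsForm L σ a) (hb : IsForm L σ b) : IsForm L σ (a + b) :=
  (CG3.Forms (O := O) (W := W) L.old σ).add_mem' ha hb

theorem isForm_zero (L : Level p S) (σ : Representation O L.Kp W) : IsForm L σ 0 :=
  (CG3.Forms (O := O) (W := W) L.old σ).zero_mem'

theorem isForm_smul (L : Level p S) (σ : Representation O L.Kp W) (c : O) {a : Fn W}
    (ha : IsForm L σ a) : IsForm L σ (c • a) :=
  (CG3.Forms (O := O) (W := W) L.old σ).smul_mem' c ha

/-- The submodule of the functions with this property. -/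
def FormsSub (L : Level p S) (σ : Representation O L.Kp W) : Submodule O (Fn W) where
  carrier := {f | IsForm L σ f}
  add_mem' := isForm_add L σ
  zero_mem' := isForm_zero L σ
  smul_mem' := isForm_smul L σ

/-- The module of all functions `f` on `{1,-1} × GL₃(𝔸_f)` with values in `W` such that
`f (x, g k) = k_p⁻¹ f (x, g)` for all `k` in `K_f`. -/
def Forms (L : Level p S) (σ : Representation O L.Kp W) : Type := FormsSub L σ

instance (L : Level p S) (σ : Representation O L.Kp W) : AddCommGroup (Forms L σ) :=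
  (inferInstance : AddCommGroup (FormsSub L σ))

instance (L : Level p S) (σ : Representation O L.Kp W) : Module O (Forms L σ) :=
  (inferInstance : Module O (FormsSub L σ))

/-- The element of `Forms` given by a function. -/
def Forms.mk (L : Level p S) (σ : Representation O L.Kp W) (f : Fn W) (h : IsForm L σ f) :
    Forms L σ := ⟨f, h⟩

/-- The function underlying an element of `Forms`. -/
def Forms.fn {L : Level p S} {σ : Representation O L.Kp W} (f : Forms L σ) : Fn W := f.1

theorem Forms.isForm {L : Level p S} {σ : Representation O L.Kp W} (f : Forms L σ) :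
    IsForm L σ f.fn := f.2

/-- The translate `(x, g) ↦ f (γ⁻¹ x, γ⁻¹ g)` of a function. -/
def translate (γ : QG) (f : Fn W) : Fn W := fun y => f ((sgn γ)⁻¹ * y.1, (diag γ)⁻¹ * y.2)

theorem translate_isForm (L : Level p S) (σ : Representation O L.Kp W) (γ : QG) (f : Forms L σ) :
    IsForm L σ (translate γ f.fn) := (CG3.formsRep (O := O) (W := W) L.old σ γ f).2

/-- The translate of an element of `Forms`. -/
def actFun (L : Level p S) (σ : Representation O L.Kp W) (γ : QG) (f : Forms L σ) : Forms L σ :=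
  Forms.mk L σ (translate γ f.fn) (translate_isForm L σ γ f)

theorem actFun_add (L : Level p S) (σ : Representation O L.Kp W) (γ : QG) (f f' : Forms L σ) :
    actFun L σ γ (f + f') = actFun L σ γ f + actFun L σ γ f' := rfl

theorem actFun_smul (L : Level p S) (σ : Representation O L.Kp W) (γ : QG) (c : O)
    (f : Forms L σ) : actFun L σ γ (c • f) = c • actFun L σ γ f := rfl

/-- The translation by `γ` as a linear map. -/
def actLin (L : Level p S) (σ : Representation O L.Kp W) (γ : QG) : Module.End O (Forms L σ) where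
  toFun := actFun L σ γ
  map_add' := actFun_add L σ γ
  map_smul' := actFun_smul L σ γ

theorem actLin_one (L : Level p S) (σ : Representation O L.Kp W) : actLin L σ 1 = 1 :=
  (CG3.formsRep (O := O) (W := W) L.old σ).map_one'

theorem actLin_mul (L : Level p S) (σ : Representation O L.Kp W) (a b : QG) :
    actLin L σ (a * b) = actLin L σ a * actLin L σ b :=
  (CG3.formsRep (O := O) (W := W) L.old σ).map_mul' a b

/-- The action of `GL₃(ℚ)` on `Forms`: `(γ f)(x, g) = f (γ⁻¹ x, γ⁻¹ g)`. -/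
def formsRep (L : Level p S) (σ : Representation O L.Kp W) :
    Representation O QG (Forms L σ) where
  toFun := actLin L σ
  map_one' := actLin_one L σ
  map_mul' := actLin_mul L σ

/-- The `GL₃(ℚ)`-module whose cohomology is the cohomology of `Y(K_f)` with coefficients in the
local system attached to `W`. -/
def coeff (L : Level p S) (σ : Representation O L.Kp W) : Rep O QG := Rep.of (formsRep L σ)

/-- The cohomology group `Hⁱ(Y(K_f), W)` : the group cohomology of the `GL₃(ℚ)`-module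
`coeff L σ`. -/
def H (L : Level p S) (σ : Representation O L.Kp W) (i : ℕ) : Type :=
  groupCohomology (coeff L σ) i

instance (L : Level p S) (σ : Representation O L.Kp W) (i : ℕ) : AddCommGroup (H L σ i) :=
  (inferInstance : AddCommGroup (groupCohomology (coeff L σ) i))

instance (L : Level p S) (σ : Representation O L.Kp W) (i : ℕ) : Module O (H L σ i) :=
  (inferInstance : Module O (groupCohomology (coeff L σ) i))

/-- The diagonal matrix with the nonzero diagonal entries `a, b, c`. -/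
def dgm (ℓ : P) (a b c : (Ql ℓ)ˣ) : Matrix (Fin 3) (Fin 3) (Ql ℓ) :=
  Matrix.diagonal ![(a : Ql ℓ), b, c]

theorem dgm_det (ℓ : P) (a b c : (Ql ℓ)ˣ) : (dgm ℓ a b c).det ≠ 0 := by
  simp [dgm, Matrix.det_diagonal, Fin.prod_univ_three]

/-- The same matrix as an element of `GL₃(ℚ_ℓ)`. -/
def dg (ℓ : P) (a b c : (Ql ℓ)ˣ) : LG ℓ :=
  GeneralLinearGroup.mkOfDetNeZero (dgm ℓ a b c) (dgm_det ℓ a b c)

theorem cast_ne_zero (ℓ : P) : ((ℓ : ℕ) : Ql ℓ) ≠ 0 := by exact_mod_cast ℓ.2.ne_zero

/-- The prime `ℓ` as a unit of `ℚ_ℓ`. -/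
def uni (ℓ : P) : (Ql ℓ)ˣ := Units.mk0 ((ℓ : ℕ) : Ql ℓ) (cast_ne_zero ℓ)

/-- The element `diag(ℓ,1,1)`, `diag(ℓ,ℓ,1)`, `diag(ℓ,ℓ,ℓ)`, `diag(ℓ,ℓ,ℓ)⁻¹` of `GL₃(ℚ_ℓ)`
for `j = 0, 1, 2, 3`. -/
def alpha (ℓ : P) (j : Fin 4) : LG ℓ :=
  (![dg ℓ (uni ℓ) 1 1, dg ℓ (uni ℓ) (uni ℓ) 1, dg ℓ (uni ℓ) (uni ℓ) (uni ℓ),
    (dg ℓ (uni ℓ) (uni ℓ) (uni ℓ))⁻¹] : Fin 4 → LG ℓ) j

/-- The set of the cosets `h GL₃(ℤ_ℓ)` contained in the double coset
`GL₃(ℤ_ℓ) α GL₃(ℤ_ℓ)`, `α = alpha ℓ j`. -/
def cosets (ℓ : P) (j : Fin 4) : Set (LG ℓ ⧸ GZ ℓ) :=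
  {c | ∃ k ∈ GZ ℓ, c = ((k * alpha ℓ j : LG ℓ) : LG ℓ ⧸ GZ ℓ)}

theorem cosets_finite (ℓ : P) (j : Fin 4) : (cosets ℓ j).Finite := CG3.cosets_finite ℓ j

end Pool.Agent.CG3F
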