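import Pool.Agent.CG3F.Defs

/-!
# The Hecke algebra, its action on cohomology, and attached Galois representations
-/

noncomputable section

namespace Pool.Agent.CG3F

open CategoryTheory
open scoped IsMulCommutative

variable {p : P} {S : Finset P}
variable {O : Type} [CommRing O] {W : Type} [AddCommGroup W] [Module O W]

/-- The sum over the cosets in the definition of the Hecke operators. -/
def heckeSum (ℓ : P) (j : Fin 4) (f : Fn W) : Fn W :=
  fun y => ∑ c ∈ (cosets_finite ℓ j).toFinset, f (y.1, y.2 * single ℓ (Quotient.out c))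

/-- The index set of the generators of the Hecke algebra: a prime `ℓ ∉ S` and `j ∈ {0,1,2,3}`. -/
def Idx (S : Finset P) : Type := {ℓ : P // ℓ ∉ S} × Fin 4

/-- The prime of an index. -/
def Idx.pr (t : Idx S) : P := t.1.1

/-- The number `j` of an index. -/
def Idx.j (t : Idx S) : Fin 4 := t.2

/-- The index with prime `ℓ` and number `j`. -/
def Idx.mk (ℓ : P) (hℓ : ℓ ∉ S) (j : Fin 4) : Idx S := (⟨ℓ, hℓ⟩, j)

theorem heckeSum_isForm (L : Level p S) (σ : Representation O L.Kp W) (t : Idx S)
    (f : Forms L σ) : IsForm L σ (heckeSum t.pr t.j f.fn) :=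
  (CG3.heckeLin (O := O) (W := W) L.old σ t f).2

/-- The Hecke operator `T_(ℓ,j)` on `Forms`. -/
def heckeFun (L : Level p S) (σ : Representation O L.Kp W) (t : Idx S) (f : Forms L σ) :
    Forms L σ := Forms.mk L σ (heckeSum t.pr t.j f.fn) (heckeSum_isForm L σ t f)

theorem heckeFun_add (L : Level p S) (σ : Representation O L.Kp W) (t : Idx S)
    (f f' : Forms L σ) : heckeFun L σ t (f + f') = heckeFun L σ t f + heckeFun L σ t f' :=
  (CG3.heckeLin (O := O) (W := W) L.old σ t).map_add' f f'

theorem heckeFun_smul (L : Level p S) (σ : Representation O L.Kp W) (t : Idx S) (c : O)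
    (f : Forms L σ) : heckeFun L σ t (c • f) = c • heckeFun L σ t f :=
  (CG3.heckeLin (O := O) (W := W) L.old σ t).map_smul' c f

/-- The Hecke operator `T_(ℓ,j)` as an endomorphism of the `O`-module `Forms`. -/
def heckeLin (L : Level p S) (σ : Representation O L.Kp W) (t : Idx S) :
    Module.End O (Forms L σ) where
  toFun := heckeFun L σ t
  map_add' := heckeFun_add L σ t
  map_smul' := heckeFun_smul L σ t

theorem heckeLin_equivariant (L : Level p S) (σ : Representation O L.Kp W) (t : Idx S) (γ : QG) :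
    heckeLin L σ t ∘ₗ formsRep L σ γ = formsRep L σ γ ∘ₗ heckeLin L σ t :=
  (CG3.heckeHom (O := O) (W := W) L.old σ t).hom.isIntertwining' γ

/-- The Hecke operator `T_(ℓ,j)` as an endomorphism of the representation `coeff L σ`. -/
def heckeHom (L : Level p S) (σ : Representation O L.Kp W) (t : Idx S) :
    coeff L σ ⟶ coeff L σ :=
  Rep.ofHom
    { toLinearMap := heckeLin L σ t
      isIntertwining' := heckeLin_equivariant L σ t }

/-- The Hecke operator `T_(ℓ,j)` on the cohomology group `Hⁱ(Y(K_f), W)`. -/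
def heckeCoh (L : Level p S) (σ : Representation O L.Kp W) (i : ℕ) (t : Idx S) :
    Module.End O (H L σ i) :=
  ((groupCohomology.functor O QG i).map (heckeHom L σ t)).hom

theorem heckeLin_comm (L : Level p S) (σ : Representation O L.Kp W) (s t : Idx S) :
    heckeLin L σ s * heckeLin L σ t = heckeLin L σ t * heckeLin L σ s :=
  CG3.heckeLin_comm (O := O) (W := W) L.old σ s t

theorem heckeCoh_comm (L : Level p S) (σ : Representation O L.Kp W) (i : ℕ) (s t : Idx S) :
    heckeCoh L σ i s * heckeCoh L σ i t = heckeCoh L σ i t * heckeCoh L σ i s := by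
  have h1 : heckeHom L σ s ≫ heckeHom L σ t = heckeHom L σ t ≫ heckeHom L σ s := by
    apply Rep.hom_ext
    apply Representation.IntertwiningMap.ext
    apply LinearMap.ext
    intro f
    exact (LinearMap.congr_fun (heckeLin_comm L σ s t) f).symm
  have h2 := congrArg (fun a => ((groupCohomology.functor O QG i).map a).hom) h1
  simp only [CategoryTheory.Functor.map_comp, ModuleCat.hom_comp] at h2
  exact h2.symm

/-- The Hecke algebra: the polynomial algebra over `O` on the Hecke operators `T_(ℓ,j)`,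
`ℓ ∉ S`, `j ∈ {0,1,2,3}`. -/
def HeckeAlg (S : Finset P) (O : Type) [CommRing O] : Type := MvPolynomial (Idx S) O

instance : CommRing (HeckeAlg S O) := (inferInstance : CommRing (MvPolynomial (Idx S) O))

instance : Algebra O (HeckeAlg S O) := (inferInstance : Algebra O (MvPolynomial (Idx S) O))

/-- The generator `T_(ℓ,j)` of the Hecke algebra. -/
def HeckeAlg.T (O : Type) [CommRing O] (t : Idx S) : HeckeAlg S O := MvPolynomial.X (R := O) t

/-- The algebra of endomorphisms of `Hⁱ(Y(K_f), W)`. -/
def EndH (L : Level p S) (σ : Representation O L.Kp W) (i : ℕ) : Type := Module.End O (H L σ i)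

instance (L : Level p S) (σ : Representation O L.Kp W) (i : ℕ) : Ring (EndH L σ i) :=
  (inferInstance : Ring (Module.End O (H L σ i)))

instance (L : Level p S) (σ : Representation O L.Kp W) (i : ℕ) : Algebra O (EndH L σ i) :=
  (inferInstance : Algebra O (Module.End O (H L σ i)))

/-- The value of an endomorphism of `Hⁱ(Y(K_f), W)`. -/
def EndH.app {L : Level p S} {σ : Representation O L.Kp W} {i : ℕ} (a : EndH L σ i) (h : H L σ i) :
    H L σ i := (show Module.End O (H L σ i) from a) h

/-- The Hecke operator `T_(ℓ,j)` as an element of `EndH`. -/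
def heckeEnd (L : Level p S) (σ : Representation O L.Kp W) (i : ℕ) (t : Idx S) : EndH L σ i :=
  heckeCoh L σ i t

/-- The algebra of endomorphisms of `Hⁱ(Y(K_f), W)` generated by the Hecke operators. -/
def heckeSub (L : Level p S) (σ : Representation O L.Kp W) (i : ℕ) :
    Subalgebra O (EndH L σ i) :=
  Algebra.adjoin O (Set.range (heckeEnd L σ i))

/-- This algebra is commutative. -/
theorem heckeSub_comm (L : Level p S) (σ : Representation O L.Kp W) (i : ℕ) :
    IsMulCommutative (heckeSub L σ i) :=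
  Algebra.isMulCommutative_adjoin O (by
    rintro _ ⟨s, rfl⟩ _ ⟨t, rfl⟩
    exact heckeCoh_comm L σ i s t)

/-- The algebra of endomorphisms of `Hⁱ(Y(K_f), W)` generated by the Hecke operators, as a
type. -/
def HeckeIm (L : Level p S) (σ : Representation O L.Kp W) (i : ℕ) : Type := heckeSub L σ i

instance (L : Level p S) (σ : Representation O L.Kp W) (i : ℕ) : CommRing (HeckeIm L σ i) :=
  have := heckeSub_comm L σ i
  (inferInstance : CommRing (heckeSub L σ i))

instance (L : Level p S) (σ : Representation O L.Kp W) (i : ℕ) : Algebra O (HeckeIm L σ i) :=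
  (inferInstance : Algebra O (heckeSub L σ i))

theorem heckeEnd_mem (L : Level p S) (σ : Representation O L.Kp W) (i : ℕ) (t : Idx S) :
    heckeEnd L σ i t ∈ heckeSub L σ i := Algebra.subset_adjoin ⟨t, rfl⟩

/-- The Hecke operator `T_(ℓ,j)` as an element of `HeckeIm`. -/
def heckeGen (L : Level p S) (σ : Representation O L.Kp W) (i : ℕ) (t : Idx S) :
    HeckeIm L σ i := ⟨heckeEnd L σ i t, heckeEnd_mem L σ i t⟩

/-- The homomorphism from the Hecke algebra to `HeckeIm` with `T_(ℓ,j) ↦ T_(ℓ,j)`. -/
def toIm (L : Level p S) (σ : Representation O L.Kp W) (i : ℕ) :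
    HeckeAlg S O →ₐ[O] HeckeIm L σ i := MvPolynomial.aeval (heckeGen L σ i)

/-- The action of the element `t` of the Hecke algebra on `Hⁱ(Y(K_f), W)`. -/
def act (L : Level p S) (σ : Representation O L.Kp W) (i : ℕ) (t : HeckeAlg S O) :
    EndH L σ i := (toIm L σ i t).1

/-- The localisation of `Hⁱ(Y(K_f), W)` at the prime ideal `m` of the Hecke algebra is not
zero. -/
def InSupport (L : Level p S) (σ : Representation O L.Kp W) (i : ℕ)
    (m : Ideal (HeckeAlg S O)) : Prop :=
  ∃ h : H L σ i, ∀ t : HeckeAlg S O, t ∉ m → (act L σ i t).app h ≠ 0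

/-- The action of `K_p` on `W` is continuous for the `𝔪`-adic topology of `W`, `𝔪` the maximal
ideal of `O`. -/
def IsContinuousRep [IsLocalRing O] (L : Level p S) (σ : Representation O L.Kp W) : Prop :=
  ∀ n : ℕ, ∃ U : Set (LG p), IsOpen U ∧ 1 ∈ U ∧ ∀ k : L.Kp, L.val k ∈ U →
    ∀ w : W, σ k w - w ∈ (IsLocalRing.maximalIdeal O ^ n • ⊤ : Submodule O W)

/-- An algebraic closure of `ℚ`. -/
abbrev Qbar := AlgebraicClosure ℚ

/-- The absolute Galois group of `ℚ`. -/
def GalQ : Type := Qbar ≃ₐ[ℚ] Qbar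

instance : Group GalQ := (inferInstance : Group (Qbar ≃ₐ[ℚ] Qbar))

/-- The Krull topology. -/
instance : TopologicalSpace GalQ := (inferInstance : TopologicalSpace (Qbar ≃ₐ[ℚ] Qbar))

/-- The image of `x` under `σ`. -/
def GalQ.app (σ : GalQ) (x : Qbar) : Qbar := (show Qbar ≃ₐ[ℚ] Qbar from σ) x

/-- The ring of algebraic integers in `Qbar`. -/
def Zbar : Type := integralClosure ℤ Qbar

instance : CommRing Zbar := (inferInstance : CommRing (integralClosure ℤ Qbar))

/-- The inclusion of `Zbar` in `Qbar`. -/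
def Zbar.val (x : Zbar) : Qbar := x.1

/-- `σ` acts trivially on the residue ring `Zbar / Q`. -/
def IsInertia (Q : Ideal Zbar) (σ : GalQ) : Prop :=
  ∀ x y : Zbar, y.val = σ.app x.val → y - x ∈ Q

/-- `σ` acts on the residue ring `Zbar / Q` by `x ↦ x ^ ℓ`: it is a Frobenius element at `Q`. -/
def IsFrob (ℓ : P) (Q : Ideal Zbar) (σ : GalQ) : Prop :=
  ∀ x y : Zbar, y.val = σ.app x.val → y - x ^ (ℓ : ℕ) ∈ Q

/-- The image in `k` of the Hecke operator `T_(ℓ,j)`, where `k` is a field extension of the
residue field of the maximal ideal `m` of the Hecke algebra. -/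
def eig (m : Ideal (HeckeAlg S O)) (k : Type) [Field k] [Algebra (HeckeAlg S O ⧸ m) k]
    (t : Idx S) : k :=
  algebraMap (HeckeAlg S O ⧸ m) k (Ideal.Quotient.mk m (HeckeAlg.T O t))

/-- The matrix of `ρ(σ)`. -/
def mat {k : Type} [Field k] (ρ : GalQ →* GL (Fin 3) k) (σ : GalQ) : Matrix (Fin 3) (Fin 3) k :=
  Units.val (ρ σ)

/-- The polynomial `X³ - c₂ X² + c₁ X - c₀`. -/
def pol {k : Type} [Field k] (c₂ c₁ c₀ : k) : Polynomial k :=
  Polynomial.X ^ 3 - Polynomial.C c₂ * Polynomial.X ^ 2 + Polynomial.C c₁ * Polynomial.X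
    - Polynomial.C c₀

/-- The representation `ρ` of the absolute Galois group of `ℚ` is attached to the maximal
ideal `m` of the Hecke algebra: it is continuous, unramified outside `S`, and the characteristic
polynomial of (arithmetic, `e = 1`, or geometric, `e = -1`) Frobenius elements at `ℓ ∉ S` is
given by the Hecke eigenvalues through the Satake isomorphism, up to a twist by a fixed power of
the cyclotomic character:
`X³ - ℓ^(a-1) t₀ X² + ℓ^(2a-1) t₁ X - ℓ^(3a) t₂`. -/
def Attached (m : Ideal (HeckeAlg S O)) (k : Type) [Field k] [Algebra (HeckeAlg S O ⧸ m) k]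
    (ρ : GalQ →* GL (Fin 3) k) : Prop :=
  IsOpen {σ : GalQ | ρ σ = 1} ∧
  ∃ (a : ℤ) (e : ℤˣ), ∀ (ℓ : P) (hℓ : ℓ ∉ S) (Q : Ideal Zbar), Q.IsPrime →
    ((ℓ : ℕ) : Zbar) ∈ Q →
      (∀ σ : GalQ, IsInertia Q σ → ρ σ = 1) ∧
      (∀ σ : GalQ, IsFrob ℓ Q σ →
        (mat ρ (σ ^ (e : ℤ))).charpoly =
          pol (((ℓ : ℕ) : k) ^ (a - 1) * eig m k (Idx.mk ℓ hℓ 0))
            (((ℓ : ℕ) : k) ^ (2 * a - 1) * eig m k (Idx.mk ℓ hℓ 1))
            (((ℓ : ℕ) : k) ^ (3 * a) * eig m k (Idx.mk ℓ hℓ 2)))

/-- `ρ` does not factor through a proper parabolic subgroup of `GL₃`, after any finite extension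
of the field `k`: over no finite extension is there a stable subspace other than `0` and the
whole space. -/
def NonEisenstein {k : Type} [Field k] (ρ : GalQ →* GL (Fin 3) k) : Prop :=
  ∀ (k' : Type) [Field k'] [Algebra k k'], Module.Finite k k' →
    ∀ V : Submodule k' (Fin 3 → k'),
      (∀ (g : GalQ), ∀ v ∈ V, ((mat ρ g).map (algebraMap k k')).mulVec v ∈ V) →
      V = ⊥ ∨ V = ⊤

end Pool.Agent.CG3F
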